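import Pool.Agent.Work.MP_859ada_lc.ER.All
import Pool.Agent.Work.MP_859ada_lc.ER.ETR
import Pool.Agent.Work.MP_859ada_lc.Std.Root

/-!
# The existential theory of the reals is in the counting hierarchy

Until now the best upper bound for the existential theory of the reals was PSPACE (Canny 1988).
Outline of the proof. An instance is brought to the form: has the sum `f` of the squares of `n`
quadratic gate equations in `n` real variables a zero? For large `h` the function
`6 * h * f + ∑ y_i ^ 6` has its minimum below a certain level `C` iff `f` has a zero; here `h` and
`C` are explicit powers `2 ^ (2 ^ poly)` (gap theorem, by the characteristic polynomial of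
`6 * h * f + ∑ y_i ^ 6` modulo the equations of the critical points, with coefficients in `ℤ[h]`).
The minimum is below the level iff the square system `y_0 ^ 6 = G_0`, `y_i ^ 5 = G_i`, with
`G_0 = C - h * (6 * f - ∑ y_i * ∂_i f)` and `G_i = - h * ∂_i f`, has a real solution. This system
has no solutions at infinity (the degrees of the `G_i` are smaller than the exponents), so the
monomials with exponents below `6, 5, ..., 5` are a basis of its algebra over the integers, and it
has a real solution iff for all `u` below some bound the characteristic polynomial of
`∑ u ^ i * y_i` has a real root. By the Euler-Jacobi residue formula the traces of the powers of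
multiplication maps are coefficients of explicit polynomials; modulo a large prime they are
exponentially long sums over the points of a torus over the prime field, and Newton's identities
give the values of the characteristic polynomials modulo primes. Real roots of such polynomials
are decided by the method for ROOT (derivatives, resultants, Chinese remaindering). All this is
carried out in an arithmetical version of the counting hierarchy, which is then translated to bit
strings and Turing machines.
-/

set_option autoImplicit false

namespace Pool.Agent.Results.MP_859ada_lc.ExistsR

open Pool.Agent.Work.MP_859ada_lc

/-- **The existential theory of the reals is in the counting hierarchy**: ROOT and all languages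
of the class `∃ℝ`, that is, all languages with a polynomial-time many-one reduction to ETR, lie in
one level of it. -/
theorem result : ∃ k : ℕ, CLevel k ROOTL ∧ ∀ L : List Bool → Prop, Red L ETRL → CLevel k L := by
  obtain ⟨k₁, h₁⟩ := rootL_inCH
  obtain ⟨k₂, h₂⟩ := ER.existsR_inCH
  refine ⟨max k₁ k₂, h₁.mono (le_max_left _ _), fun L hL => ?_⟩
  obtain ⟨f, hf, hL⟩ := hL
  exact (((h₂ ETRL ETR.manyReal_ETRL).mono (le_max_right _ _)).red (ptf_of_f hf)).congr
    fun x => (hL x).symm

end Pool.Agent.Results.MP_859ada_lc.ExistsR
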