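import Pool.Agent.Work.MP_859ada_lc.FC.Asm

/-!
# The power of few scales is NP with an oracle for PosSLP
-/

set_option autoImplicit false

namespace Pool.Agent.Results.MP_859ada_lc.FewScales

open Polynomial Pool.Agent.Work.MP_859ada_lc

/-- **Main theorem.** A language is in `NP^PosSLP` iff it has a polynomial-time many-one reduction
to ROOT such that the polynomials of the yes-instances change sign between two real numbers with
few scales, or have a real root and few nonzero coefficients. -/
theorem result (L : List Bool → Prop) : NPPosSLP L ↔
    ∃ (g : List Bool → List Bool) (q : Polynomial ℕ),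
      Nonempty (Turing.TM2ComputableInPolyTime (fun s : List Bool => s) (fun s : List Bool => s) g) ∧
      ∀ w, (L w ↔ ROOTL (g w)) ∧
        (L w → ∃ p, g w = encProg p ∧ Tame (q.eval w.length) p) :=
  FC.complete_main L

end Pool.Agent.Results.MP_859ada_lc.FewScales
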