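import Pool.Agent.Work.MP_859ada_lc.Main

/-!
# The problems which reduce to ROOT: nondeterminism with one real guess

A language has a polynomial-time many-one reduction to ROOT if and only if it is accepted in
nondeterministic polynomial time with one real guess (`OneReal`). In particular (take for `L` the
existential theory of the reals) Q1 asks whether one real guess, together with polynomially many
bits, suffices for the whole existential theory of the reals.
-/

set_option autoImplicit false

namespace Pool.Agent.Results.MP_859ada_lc.OneRealGuess

open Pool.Agent.Work.MP_859ada_lc

/-- **Main theorem.** The languages which reduce to ROOT are exactly those accepted in
nondeterministic polynomial time with one real guess. -/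
theorem result (L : List Bool → Prop) : Red L ROOTL ↔ OneReal L := (red_iff L).2

end Pool.Agent.Results.MP_859ada_lc.OneRealGuess
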