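import Pool.Agent.Work.MP_859ada_lc.Main

/-!
# ROOT is equivalent to the solvability of triangular systems in many variables

The problem TRI (the real solvability of nondegenerate triangular polynomial systems in many
variables, the equations being given by straight-line programs) and the problem ROOT (one
variable) are equivalent under polynomial-time many-one reductions.
-/

set_option autoImplicit false

namespace Pool.Agent.Results.MP_859ada_lc.Triangular

open Pool.Agent.Work.MP_859ada_lc

/-- **Main theorem.** ROOT and TRI are equivalent under polynomial-time many-one reductions. -/
theorem result : Red TRIL ROOTL ∧ Red ROOTL TRIL :=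
  ⟨(red_iff TRIL).1.2 (red_refl TRIL), (red_iff ROOTL).1.1 (red_refl ROOTL)⟩

end Pool.Agent.Results.MP_859ada_lc.Triangular
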